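import Pool.Agent.Y377.IR.Basic
import Pool.Agent.Y108.IL.FB

/-!
Algebraic elements of finite extensions, version for groups of automorphisms (`G_FB` of
`Pool.Agent.Y377.IR.Stm`).  Adaptation of `Pool.Agent.Y108.IL.FB`.
-/

set_option autoImplicit false

namespace Pool.Agent.Y657.IR

open Pool.Agent.Y377.EL Pool.Agent.Y377.IL Pool.Agent.Y377.IR
open Pool.Agent.Y108.IL (overS alg_trace)

variable {K : Type} [Field K] [Algebra ℂ K]

/-- the trace commutes with the automorphisms -/
theorem G_trace (Γ : Subgroup (K ≃ₐ[ℂ] K)) (L : IntermediateField ℂ K) (F : IntermediateField L K)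
    (hL : ∀ γ ∈ Γ, ∀ x ∈ L, γ x ∈ L) (hF : ∀ γ ∈ Γ, ∀ x ∈ F, γ x ∈ F) {γ : K ≃ₐ[ℂ] K} (hγ : γ ∈ Γ)
    (x : F) :
    γ ((Algebra.trace L F x : L) : K) = ((Algebra.trace L F ⟨γ x, hF γ hγ x x.2⟩ : L) : K) := by
  let e1 : L ≃+* L :=
    { toFun := fun x => ⟨γ x, hL γ hγ x x.2⟩
      invFun := fun x => ⟨γ.symm x, hL _ (Γ.inv_mem hγ) x x.2⟩
      left_inv := fun x => Subtype.ext (γ.symm_apply_apply _)
      right_inv := fun x => Subtype.ext (γ.apply_symm_apply _)
      map_mul' := fun x y => Subtype.ext (map_mul γ _ _)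
      map_add' := fun x y => Subtype.ext (map_add γ _ _) }
  let e2 : F ≃+* F :=
    { toFun := fun x => ⟨γ x, hF γ hγ x x.2⟩
      invFun := fun x => ⟨γ.symm x, hF _ (Γ.inv_mem hγ) x x.2⟩
      left_inv := fun x => Subtype.ext (γ.symm_apply_apply _)
      right_inv := fun x => Subtype.ext (γ.apply_symm_apply _)
      map_mul' := fun x y => Subtype.ext (map_mul γ _ _)
      map_add' := fun x y => Subtype.ext (map_add γ _ _) }
  have h := Algebra.trace_eq_of_equiv_equiv e1 e2 (by
    ext x
    rfl) x
  have h1 : e1 (Algebra.trace L F x) = Algebra.trace L F (e2 x) := by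
    rw [h, e1.apply_symm_apply]
  exact congrArg (fun y : L => (y : K)) h1

theorem t_FB : Pool.Agent.Y377.IR.G_FB := by
  classical
  intro K _ _ Γ R R' S hRR' hR'S hDR hDR' hDS hsim hnoe hfg1 hfg2
  obtain ⟨N1, hN1, hN1mem⟩ := hfg1
  obtain ⟨NS, ⟨G, hG⟩, hNSmem⟩ := hfg2
  let L : IntermediateField ℂ K := frac R'
  have hR'L : ∀ x ∈ R', x ∈ L := fun x hx => le_frac R' hx
  have hRL : ∀ x ∈ R, x ∈ L := fun x hx => hR'L x (hRR' hx)
  have hGS : ∀ g ∈ G, g ∈ S := fun g hg => (hNSmem g).1 (hG ▸ Submodule.subset_span hg)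
  have hint : ∀ g ∈ S, IsAlgebraic R' g := by
    intro g hg
    have h1 : (Subalgebra.toSubmodule (overS R' S hR'S)) = NS := by
      ext x
      rw [hNSmem]
      rfl
    have h2 : (Subalgebra.toSubmodule (overS R' S hR'S)).FG := by
      rw [h1]
      exact ⟨G, hG⟩
    exact (IsIntegral.of_mem_of_fg (overS R' S hR'S) h2 g hg).isAlgebraic
  have hintL : ∀ g ∈ S, IsIntegral L g := by
    intro g hg
    have h1 : IsAlgebraic L.toSubalgebra g := alg_mono (S := L.toSubalgebra) hR'L (hint g hg)
    exact IsAlgebraic.isIntegral (K := L) h1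
  let F : IntermediateField L K := IntermediateField.adjoin L (G : Set K)
  have hFfin : FiniteDimensional L F :=
    IntermediateField.finiteDimensional_adjoin (S := (G : Set K))
      (fun x hx => hintL x (hGS x hx))
  have hLF : ∀ x ∈ L, x ∈ F := fun x hx => F.algebraMap_mem (⟨x, hx⟩ : L)
  have hSF : ∀ x ∈ S, x ∈ F := by
    intro x hx
    have hx1 : x ∈ Submodule.span R' (G : Set K) := by
      rw [hG]
      exact (hNSmem x).2 hx
    induction hx1 using Submodule.span_induction with
    | mem y hy => exact IntermediateField.subset_adjoin L _ hy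
    | zero => exact F.zero_mem
    | add y z hy hz ihy ihz =>
      exact F.add_mem (ihy ((hNSmem y).1 (hG ▸ hy))) (ihz ((hNSmem z).1 (hG ▸ hz)))
    | smul c y hy ih =>
      have h1 := ih ((hNSmem y).1 (hG ▸ hy))
      rw [Algebra.smul_def]
      exact F.mul_mem (hLF _ (hR'L _ c.2)) h1
  have hDL : ∀ γ ∈ Γ, ∀ x ∈ L, γ x ∈ L := fun γ hγ x hx => stabG_frac hDR' hγ hx
  have hDF : ∀ γ ∈ Γ, ∀ x ∈ F, γ x ∈ F := by
    intro γ hγ x hx
    induction hx using IntermediateField.adjoin_induction with
    | mem y hy => exact hSF _ (hDS γ hγ y (hGS y hy))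
    | algebraMap y => exact hLF _ (hDL γ hγ _ y.2)
    | add y z _ _ hy hz =>
      rw [map_add]
      exact F.add_mem hy hz
    | inv y hy' hy =>
      rw [map_inv₀]
      exact F.inv_mem hy
    | mul y z hy' hz' hy hz =>
      rw [map_mul]
      exact F.mul_mem hy hz
  -- the trace
  obtain ⟨T, hT⟩ := LinearMap.exists_extend (p := Subalgebra.toSubmodule F.toSubalgebra)
    (Algebra.trace L F)
  have hTF : ∀ x : F, T (x : K) = Algebra.trace L F x := fun x => LinearMap.congr_fun hT x
  have hTD : ∀ γ ∈ Γ, ∀ x ∈ F, γ (T x : K) = (T (γ x) : K) := by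
    intro γ hγ x hx
    have h1 := G_trace Γ L F hDL hDF hγ ⟨x, hx⟩
    rw [← hTF, ← hTF] at h1
    exact h1
  have hTsmul : ∀ (c : K) (hc : c ∈ L) (x : K), (T (c * x) : K) = c * T x := by
    intro c hc x
    have h1 := T.map_smul (⟨c, hc⟩ : L) x
    have h2 : ((⟨c, hc⟩ : L) • x : K) = c * x := rfl
    rw [h2] at h1
    rw [h1]
    rfl
  -- the trace of the elements of `S`
  let N : Submodule R' K := Submodule.span R' ((fun g => (T g : K)) '' (G : Set K))
  have hTN : ∀ x ∈ S, (T x : K) ∈ N := by
    intro x hx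
    have hx1 : x ∈ Submodule.span R' (G : Set K) := by
      rw [hG]
      exact (hNSmem x).2 hx
    clear hx
    induction hx1 using Submodule.span_induction with
    | mem y hy => exact Submodule.subset_span ⟨y, hy, rfl⟩
    | zero =>
      rw [map_zero]
      exact N.zero_mem
    | add y z _ _ ihy ihz =>
      rw [map_add]
      exact N.add_mem ihy ihz
    | smul c y _ ih =>
      have h1 := N.smul_mem c ih
      rw [Algebra.smul_def] at h1 ⊢
      change (T ((c : K) * y) : K) ∈ N
      rw [hTsmul c (hR'L c c.2)]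
      exact h1
  have hNfg : N.FG := Submodule.fg_span (G.finite_toSet.image _)
  have hNL : ∀ x ∈ N, x ∈ frac R' := by
    intro x hx
    induction hx using Submodule.span_induction with
    | mem y hy =>
      obtain ⟨g, -, rfl⟩ := hy
      exact (T g).2
    | zero => exact (frac R').zero_mem
    | add y z _ _ ihy ihz => exact (frac R').add_mem ihy ihz
    | smul c y _ ih =>
      rw [Algebra.smul_def]
      exact (frac R').mul_mem (hR'L _ c.2) ih
  have hND : ∀ γ ∈ Γ, ∀ x ∈ N, γ x ∈ N := by
    intro γ hγ x hx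
    induction hx using Submodule.span_induction with
    | mem y hy =>
      obtain ⟨g, hg, rfl⟩ := hy
      change γ (T g : K) ∈ N
      rw [hTD γ hγ g (hSF g (hGS g hg))]
      exact hTN _ (hDS γ hγ g (hGS g hg))
    | zero =>
      rw [map_zero]
      exact N.zero_mem
    | add y z _ _ ihy ihz =>
      rw [map_add]
      exact N.add_mem ihy ihz
    | smul c y hy ih =>
      have h2 := N.smul_mem (⟨γ c, hDR' γ hγ c c.2⟩ : R') ih
      have h3 : γ (c • y) = (⟨γ c, hDR' γ hγ c c.2⟩ : R') • γ y := by
        change γ ((c : K) * y) = γ c * γ y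
        rw [map_mul]
      rw [h3]
      exact h2
  have hTR' : ∀ x ∈ S, (T x : K) ∈ R' := fun x hx =>
    GSimple.mem_of_fg hsim hDR' hND hNfg hNL (hTN x hx)
  have hTalg : ∀ x ∈ S, IsAlgebraic R x → IsAlgebraic R (T x : K) := by
    intro x hx hxa
    have h1 := alg_trace R L hRL F ⟨x, hSF x hx⟩ hxa
    rw [← hTF] at h1
    exact h1
  -- the algebraic elements
  let S1 : Subalgebra ℂ K := S ⊓ algC R
  have hTS1 : ∀ x ∈ S1, (T x : K) ∈ N1 := fun x hx =>
    (hN1mem _).2 ⟨hTR' x hx.1, hTalg x hx.1 hx.2⟩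
  let V : Subalgebra L K := Algebra.adjoin L (S1 : Set K)
  have hVspan : Subalgebra.toSubmodule V = Submodule.span L (S1 : Set K) := by
    have h1 : (Submonoid.closure (S1 : Set K) : Set K) = S1 := by
      have : Submonoid.closure (S1 : Set K) = S1.toSubmonoid :=
        Submonoid.closure_eq S1.toSubmonoid
      rw [this]
      rfl
    rw [Algebra.adjoin_eq_span, h1]
  have hVF : ∀ x ∈ V, x ∈ F := by
    intro x hx
    have h1 : V ≤ F.toSubalgebra := Algebra.adjoin_le fun y hy => hSF y hy.1
    exact h1 hx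
  have hVfin : FiniteDimensional L V := by
    have h1 : FiniteDimensional L (Subalgebra.toSubmodule F.toSubalgebra) := hFfin
    exact Submodule.finiteDimensional_of_le (S₁ := Subalgebra.toSubmodule V)
      (S₂ := Subalgebra.toSubmodule F.toSubalgebra) hVF
  let B : LinearMap.BilinForm L V := LinearMap.mk₂ L (fun x y : V => T ((x : K) * (y : K)))
    (fun x y z => by
      change T (((x : K) + (y : K)) * (z : K)) = _
      rw [add_mul, map_add])
    (fun c x y => by
      change T ((c • (x : K)) * (y : K)) = _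
      rw [smul_mul_assoc, map_smul])
    (fun x y z => by
      change T ((x : K) * ((y : K) + (z : K))) = _
      rw [mul_add, map_add])
    (fun c x y => by
      change T ((x : K) * (c • (y : K))) = _
      rw [mul_smul_comm, map_smul])
  have hBapp : ∀ x y : V, B x y = T ((x : K) * (y : K)) := fun x y => rfl
  have hT1 : T 1 ≠ 0 := by
    have h1 : T ((1 : F) : K) = Algebra.trace L F 1 := hTF 1
    have h2 : Algebra.trace L F (algebraMap L F 1) = Module.finrank L F • (1 : L) :=
      Algebra.trace_algebraMap _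
    rw [map_one] at h2
    have h3 : T 1 = Module.finrank L F • (1 : L) := by
      rw [← h2, ← h1]
      rfl
    rw [h3, nsmul_one]
    exact Nat.cast_ne_zero.2 Module.finrank_pos.ne'
  have hsep : ∀ x : V, (∀ y : V, B x y = 0) → x = 0 := by
    intro x hx
    by_contra hx0
    have hx0' : (x : K) ≠ 0 := fun h => hx0 (Subtype.ext h)
    have halg : IsAlgebraic L (x : K) := by
      have h0 : IsIntegral L x := Algebra.IsIntegral.isIntegral x
      exact (h0.map V.val).isAlgebraic
    have hinv : (x : K)⁻¹ ∈ V := Subalgebra.inv_mem_of_algebraic V (x := x) halg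
    have h1 := hx ⟨(x : K)⁻¹, hinv⟩
    rw [hBapp] at h1
    change T ((x : K) * (x : K)⁻¹) = 0 at h1
    rw [mul_inv_cancel₀ hx0'] at h1
    exact hT1 h1
  have hB : B.Nondegenerate := by
    refine ⟨hsep, fun y hy => hsep y fun z => ?_⟩
    rw [hBapp, mul_comm, ← hBapp]
    exact hy z
  -- a basis in `S1`
  let s : Set V := {v | (v : K) ∈ S1}
  have hs : ⊤ ≤ Submodule.span L s := by
    rintro ⟨v, hv⟩ -
    have hv1 : v ∈ Submodule.span L (S1 : Set K) := by
      rw [← hVspan]
      exact hv
    clear_value V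
    induction hv1 using Submodule.span_induction with
    | mem y hy => exact Submodule.subset_span hy
    | zero => exact Submodule.zero_mem _
    | add y z hy hz ihy ihz =>
      have hy' : y ∈ V := by
        have : y ∈ Subalgebra.toSubmodule V := by rw [hVspan]; exact hy
        exact this
      have hz' : z ∈ V := by
        have : z ∈ Subalgebra.toSubmodule V := by rw [hVspan]; exact hz
        exact this
      exact Submodule.add_mem _ (ihy hy') (ihz hz')
    | smul c y hy ih =>
      have hy' : y ∈ V := by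
        have : y ∈ Subalgebra.toSubmodule V := by rw [hVspan]; exact hy
        exact this
      exact Submodule.smul_mem _ c (ih hy')
  let b := Module.Basis.ofSpan hs
  have hfinι := Module.Finite.finite_basis b
  have := Fintype.ofFinite ((linearIndepOn_empty L (id : V → V)).extend (Set.empty_subset s))
  have hbS1 : ∀ i, ((b i : V) : K) ∈ S1 := fun i =>
    Module.Basis.ofSpan_subset hs (Set.mem_range_self i)
  let b' := B.dualBasis hB b
  let P : Submodule R K := N1 * Submodule.span R (Set.range fun i => ((b' i : V) : K))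
  have hP : P.FG := hN1.mul (Submodule.fg_span (Set.finite_range _))
  let NS1 : Submodule R K :=
    { carrier := S1
      add_mem' := S1.add_mem
      zero_mem' := S1.zero_mem
      smul_mem' := fun c x hx => by
        have hc : (c : K) ∈ S1 := ⟨hR'S (hRR' c.2), alg_of_mem c.2⟩
        have := S1.mul_mem hc hx
        rw [Algebra.smul_def]
        exact this }
  have hle : NS1 ≤ P := by
    intro x hx
    have hx' : x ∈ S1 := hx
    have hxV : x ∈ V := Algebra.subset_adjoin hx'
    have h1 := b'.sum_repr ⟨x, hxV⟩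
    have h2 : ∑ i, ((b'.repr ⟨x, hxV⟩ i : L) : K) * ((b' i : V) : K) = x := by
      have h3 := congrArg (fun v : V => (v : K)) h1
      simp only [AddSubmonoidClass.coe_finsetSum] at h3
      exact h3
    rw [← h2]
    refine Submodule.sum_mem _ fun i _ => ?_
    refine Submodule.mul_mem_mul ?_ (Submodule.subset_span ⟨i, rfl⟩)
    have h4 : b'.repr ⟨x, hxV⟩ i = B ⟨x, hxV⟩ (b i) :=
      LinearMap.BilinForm.dualBasis_repr_apply hB b ⟨x, hxV⟩ i
    rw [h4, hBapp]
    exact hTS1 _ (S1.mul_mem hx' (hbS1 i))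
  exact ⟨NS1, Submodule.FG.of_le hP hle, fun x => Iff.rfl⟩

end Pool.Agent.Y657.IR
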